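import Pool.Agent.Q58.LG.CorW

/-!
MP_4dacf8_ag, Q1: Vojta's height inequality with truncated counting function, for all algebraic
points outside of a proper closed subset, on the varieties over a function field which correspond, in
small degree, to subvarieties of generic pairs.

Let `K` be a function field of one variable over an algebraically closed field `k` of characteristic
`0`. Let `K0` be a subfield of `K` that is finitely generated over a subfield `k0` of `k`, `V` a
closed subset of `ℙⁿ` defined over `K0`, of dimension at most `m`, and `F_a` forms over `K` of
degrees `d_a`, for `a` in a finite set `A`, whose coefficients are all together algebraically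
independent over `K0`. (For `k` uncountable and `k0` countable, this holds for the very general forms
over `k`, and for very general families of forms, which are not isotrivial.) Let `C` be a subset of
`A`, let `X₀` be the intersection of `V` with the hypersurfaces `F_c = 0`, `c ∈ C`, and `D₀` the
union of the hypersurfaces `F_b = 0`, `b ∉ C`.

Let `X` be a projective variety over `K`, in `ℙᴹ`, given by its generic point `z` over its function
field `L`: the equations of `X` are the forms which vanish at `z`. The dimension of `X` is arbitrary.
Let `K'` be an extension of `L` of degree at most `r`, and let `y` be a point of `X₀` over `K'`, such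
that `K'` is algebraic over the field generated over `K` by the ratios of the coordinates of `y`. The
closure `Γ` of the point `(z, y)` in `X × X₀` is a correspondence: it is generically finite over `X`,
of degree at most `r`, and generically finite over its image in `X₀`, of any degree. The image of `Γ`
in `X₀` is an arbitrary subvariety. For `r = 1` this is a rational map from `X` to `X₀`, generically
finite onto its image; in general `X` has no rational map to `X₀`, for example `X` can be a quotient
of a subvariety of `X₀` by a finite group of order at most `r`. Let `H` be a form of degree `h` over
`K` on the space of `X` such that `Γ` does not meet `(X ∖ {H = 0}) × D₀`. (If `D₀` is empty, that is,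
`C = A`, then there is no condition and `H = 1` is allowed.) The indeterminacy of the correspondence,
the branch loci and the singularities are arbitrary.

If `2 m + 2 r ≤ ∑ d_a + |C|`, then there are a proper closed subset `X ∩ {G = 0}` of `X` and
constants `A₀` and `C₀` such that for all finite extensions `L₀` of `K` and all points `w` of `X` over
`L₀` with `G(w) ≠ 0` and `H(w) ≠ 0`

`h(w) ≤ A₀ (2 g(L₀) - 2 + N(w)) + C₀ [L₀ : K]`.

Here `h(w)` is the height of `w` with respect to `O(1)` and `L₀`, which is `[L₀ : K]` times the height
relative to `K`, and `N(w)` is the number of the places of `L₀` at which `w` meets `H = 0`, which is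
`[L₀ : K]` times the truncated counting function of the problem, up to a term `O([L₀ : K])` which
depends on the model. After division by `[L₀ : K]` this is the inequality of Q1, for the height with
respect to `O(1)`, with `Z = X ∩ {G H = 0}`. Since the height associated with any divisor is at most
a multiple of the height with respect to `O(1)`, plus a constant, the conjecture holds for these `X`
if they are smooth and `D = X ∩ {H = 0}` has normal crossings. Since the hypotheses on `X` are
birational if `D` is empty, this gives smooth projective `X` in all dimensions up to `dim X₀`, which
have no morphisms to, or from, the complete intersections.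

The proof: the correspondence is spread out; at the point `w` it gives an extension of `L₀` of degree
at most `r` and a point of `X₀` over it. By the Nullstellensatz this point is off `D₀` at the places
where `w` is off `H = 0`, with the exception of the places above a finite set of places of `K`, since
`Γ` does not meet `(X ∖ {H = 0}) × D₀`. The height inequality for the points of `X₀` over extensions
of `L₀` of degree at most `r` bounds the height of this point, and the height of `w` is at most a
multiple of it, plus `O([L₀ : K])`.

The height `pht k w` is minus the sum over all places of `L₀` of the minimum of the orders of the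
coordinates, and `canDeg k L₀` is `2 g(L₀) - 2`. `eqs V F` are the equations of `V` and the forms
`F_c` (`Pool/Agent/Q58/FI/Eqs.lean`). `DimLE K0 V m` means that for each point of `V` over an
extension field of `K0`, the ratios of its coordinates generate a field of transcendence degree at
most `m` over `K0`. `InClosureP z y w p` means that `(w, p)` is in the closure `Γ` of `(z, y)`: all
bihomogeneous polynomials over `K` which vanish at `(z, y)` vanish at `(w, p)`
(`Pool/Agent/Q58/LG/CorW.lean`). `coords K y` is the field generated by the ratios of the coordinates
of `y` and `val y P` is the value of `P` at `y` (`Pool/Agent/W602/GT/SpDefs.lean`).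
-/

set_option autoImplicit false

namespace Pool.Agent.Results.MP_4dacf8_ag.CorrespondingPairs

open FF MvPolynomial
open Pool.Agent.W603.LV (canDeg)
open Pool.Agent.W603.PV (pord pht)
open Pool.Agent.TH145.MG (DimLE)
open Pool.Agent.W602.GT (val coords)
open Pool.Agent.Q58.FI (eqs)
open Pool.Agent.Q58.LG (InClosureP)

/-- The places of `L0` at which the point `w` meets the hypersurface `H = 0`, for a form `H` of
degree `h`. -/
def Meets (k : Type) {K L0 : Type} [Field k] [Field K] [Field L0] [Algebra k L0] [Algebra K L0]
    {M : ℕ} (H : MvPolynomial (Fin (M + 1)) K) (h : ℕ) (w : Fin (M + 1) → L0) : Set (Place k L0) :=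
  {P | h * pord P w < P.ord (aeval w H)}

theorem result {k0 k K0 K : Type} [Field k0] [Field k] [Field K0] [Field K] [IsAlgClosed k]
    [CharZero k] [Algebra k0 k] [Algebra k K] [Algebra k0 K] [IsScalarTower k0 k K]
    [Algebra k0 K0] [Algebra K0 K] [IsScalarTower k0 K0 K] [IsFF k K]
    (hfg : ∃ S : Finset K0, IntermediateField.adjoin k0 (S : Set K0) = ⊤) {n m r M h : ℕ}
    -- the degrees of the forms; the forms with indices in `C` are equations, the others give the
    -- boundary
    {A : Type} [Fintype A] {d : A → ℕ} (C : Finset A) (hd : 2 * m + 2 * r ≤ ∑ a, d a + C.card)
    -- a closed subset of projective space, of dimension at most `m`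
    (V : Set (MvPolynomial (Fin (n + 1)) K0)) (hVh : ∀ f ∈ V, ∃ e, f.IsHomogeneous e)
    (hV : DimLE K0 V m)
    -- forms of degrees `d a` with independent coefficients
    (F : A → MvPolynomial (Fin (n + 1)) K) (hF : ∀ a, (F a).IsHomogeneous (d a))
    (hgen : AlgebraicIndependent K0
      fun p : (a : A) × {I : Fin (n + 1) →₀ ℕ // I.degree = d a} => (F p.1).coeff p.2.1)
    -- the generic point of a projective variety over `K`, over the function field `L`
    (L : Type) [Field L] [Algebra K L] (z : Fin (M + 1) → L) (hz : z ≠ 0) (hzL : coords K z = ⊤)
    -- a point of the intersection over an extension of degree at most `r`, generically finite onto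
    -- its image
    (K' : Type) [Field K'] [Algebra K K'] [Algebra L K'] [IsScalarTower K L K']
    [FiniteDimensional L K'] (hr : Module.finrank L K' ≤ r) (y : Fin (n + 1) → K') (hy : y ≠ 0)
    (hyX : ∀ e, val y (eqs V (fun c : {a // a ∈ C} => F c.1) e) = 0)
    (halg : Algebra.IsAlgebraic (coords K y) K')
    -- the boundary of the projective variety
    (H : MvPolynomial (Fin (M + 1)) K) (hH : H.IsHomogeneous h)
    -- the correspondence does not meet the boundary of the intersection over the complement
    (hbd : ∀ b, b ∉ C → ∀ (w : Fin (M + 1) → AlgebraicClosure K)
      (p : Fin (n + 1) → AlgebraicClosure K), InClosureP (K := K) z y w p → aeval w H ≠ 0 →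
        aeval p (F b) ≠ 0) :
    -- the height inequality for all algebraic points outside of a proper closed subset
    ∃ G : MvPolynomial (Fin (M + 1)) K, (∃ e, G.IsHomogeneous e) ∧ aeval z G ≠ 0 ∧
      ∃ A0 C0 : ℕ, ∀ (L0 : Type) [Field L0] [Algebra k L0] [Algebra K L0] [IsScalarTower k K L0]
        [FiniteDimensional K L0] (w : Fin (M + 1) → L0), w ≠ 0 →
        (∀ P : MvPolynomial (Fin (M + 1)) K, (∃ e, P.IsHomogeneous e) → aeval z P = 0 →
          aeval w P = 0) → aeval w G ≠ 0 → aeval w H ≠ 0 →
        pht k w ≤ A0 * (canDeg k L0 + (Meets k H h w).ncard) + C0 * Module.finrank K L0 :=
  Pool.Agent.Q58.LG.vojta_proj hfg C hVh hV hd hF hgen hz hzL hH hr hy hyX halg hbd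

end Pool.Agent.Results.MP_4dacf8_ag.CorrespondingPairs
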