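import Pool.Agent.Q80.FH.Voj

/-!
MP_4dacf8_ag, Q1: Vojta's height inequality over function fields for all algebraic points, for the
projective schemes with a finite morphism to projective space which is ramified, outside the boundary,
over many general constant hypersurfaces.
-/

set_option autoImplicit false

namespace Pool.Agent.Results.MP_4dacf8_ag.HypersurfaceCoversAllPoints

open FF Pool.Agent.Q80.FH MvPolynomial

/-- Let `k` be an algebraically closed field of characteristic zero, `n, d ≥ 1` and `m ≥ 2`,
`N + 1 = C(n + d, n)`, `2 N m ≤ K (m - 1)` and `q > C(N + K, N)`. Let `Φ 1, …, Φ q` be general forms of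
degree `d` in `n + 1` variables over `k`. There is a constant `B` with the following property. Let `F` be
a function field of one variable over `k`, `X` a projective scheme over `F` with a finite morphism to
projective `n`-space, and `D` the closed subscheme of `X` defined by forms `G t` of degrees `γ t`, and
suppose that the morphism is ramified with the multiplicity at least `m` over the hypersurfaces
`Φ i = 0`, outside `D` and finitely many places of `F`. Then there is a constant `C` such that the height
of all points of `X ∖ D` over finite extensions `L` of `F` is at most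
`B * (2 g(L) - 2 + N) + C * [L : F]`, where `N` is the number of the places of `L` at which the point
meets `D`. -/
theorem result (k : Type) [Field k] [IsAlgClosed k] [CharZero k] {n d m N K q : ℕ} (hn : 1 ≤ n)
    (hd : 1 ≤ d) (hm : 2 ≤ m) (hN : N + 1 = (n + d).choose n) (hK : 2 * N * m ≤ K * (m - 1))
    (hq : (N + K).choose N < q) :
    ∃ Ψ : MvPolynomial (Fin q × Exps n d) k, Ψ ≠ 0 ∧
      ∀ Φ : Fin q → MvPolynomial (Fin (n + 1)) k, (∀ i, (Φ i).IsHomogeneous d) →
        eval (fun x => coeff x.2.1 (Φ x.1)) Ψ ≠ 0 →
          ∃ B : ℕ, ∀ (F : Type) [Field F] [Algebra k F] [IsFF k F] (r : ℕ) (X : FinCoverF F n r)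
            (κ : Type) (G : κ → MvPolynomial (Fin (n + 1) ⊕ Fin r) F) (γ : κ → ℕ)
            (S : Finset (Place k F)), X.Ramified Φ m d S G γ → ∃ C : ℕ, X.VojtaOff k G γ B C :=
  main_v k hn hd hm hN hK hq

end Pool.Agent.Results.MP_4dacf8_ag.HypersurfaceCoversAllPoints
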