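import Pool.Agent.Q58.LG.Voj2

/-!
MP_4dacf8_ag, Q1: Vojta's height inequality with truncated counting function, for all algebraic
points, on the images of varieties over generic pairs over function fields, with an explicit constant
and without exceptional set.

Let `K` be a function field of one variable over an algebraically closed field `k` of characteristic
`0`. Let `K0` be a subfield of `K` that is finitely generated over a subfield `k0` of `k`, `V` a
closed subset of `ℙⁿ` defined over `K0`, of dimension at most `m`, and `F_a` forms over `K` of
degrees `d_a`, for `a` in a finite set `A`, whose coefficients are all together algebraically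
independent over `K0`. (For `k` uncountable and `k0` countable, this holds for the very general forms
over `k`, and for very general families of forms, which are not isotrivial.) Let `C` be a subset of
`A`, let `X₀` be the intersection of `V` with the hypersurfaces `F_c = 0`, `c ∈ C`, and `D₀` the
union of the hypersurfaces `F_b = 0`, `b ∉ C`.

Let `W = {Ψ = 0}` and `Y = {Φ = 0}` be projective varieties over `K`, with a morphism `B : W → X₀`
given by forms of degree `e_B` and a surjective morphism `G : W → Y` given by forms of degree `e_G`,
with fibres of at most `t` points. (The morphisms are given by forms of positive degree over `K`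
without common zeros on `W`, so they are finite. For example `W` can be a closed subvariety of `X₀`
or of a finite cover of `X₀`, and `Y` its image in a projective space under a finite morphism; the
branch locus and the singularities are arbitrary, and `Y` has no morphism to `X₀` in general.) Let
`H` be a form of degree `h` over `K` on the space of `Y` such that the points of `W` which are mapped
to the complement of `H = 0` in `Y` are mapped to the complement of `D₀` in `X₀`. (If `D₀` is empty,
that is, `C = A`, then `H = 1` is allowed.)

If `2 m + 2 t ≤ ∑ d_a + |C|` then there is a constant `C₀` such that for all finite extensions `L` of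
`K` and all points `z` of `Y ∖ {H = 0}` over `L`

`e_B (∑ d_a + |C| + 1 - 2 m - 2 t) h(z) ≤ e_G (2 g(L) - 2 + N(z)) + C₀ [L : K]`.

Here `h(z)` is the height of `z` with respect to `O(1)` and `L`, which is `[L : K]` times the height
relative to `K`, and `N(z)` is the number of the places of `L` at which `z` meets `H = 0`, which is
`[L : K]` times the truncated counting function of the problem, up to a term `O([L : K])` which
depends on the model. After division by `[L : K]` this is the inequality of Q1, with the constant `e_G / (e_B (∑ d_a + |C| + 1 - 2 m - 2 t))` for the height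
with respect to `O(1)`, for all algebraic points outside of `H = 0`. Since the height associated with
any divisor is at most a multiple of the height with respect to `O(1)`, the conjecture holds for
these `Y` if they are smooth and `D = {H = 0}` has normal crossings, with `Z = Supp D`.

The height `pht k z` is minus the sum over all places of `L` of the minimum of the orders of the
coordinates, and `canDeg k L` is `2 g(L) - 2`. The polynomials `bc Ψ` are the polynomials `Ψ`
regarded as polynomials over the algebraic closure of `K` (`Pool/Agent/Q58/FI/Lift.lean`), and
`eqs V F` are the equations of `V` and the forms `F_c` (`Pool/Agent/Q58/FI/Eqs.lean`). `DimLE K0 V m`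
means that for each point of `V` over an extension field of `K0`, the ratios of its coordinates
generate a field of transcendence degree at most `m` over `K0`. `Mor`, `Onto`, `FibresLe` and `im`
are in `Pool/Agent/Y221/FQ/Defs.lean` and `Cone` is in `Pool/Agent/W602/GT/SpDefs.lean`.
-/

set_option autoImplicit false

namespace Pool.Agent.Results.MP_4dacf8_ag.ImagesOfPairs

open FF MvPolynomial
open Pool.Agent.W603.LV (canDeg)
open Pool.Agent.W603.PV (pord pht)
open Pool.Agent.TH145.MG (DimLE)
open Pool.Agent.W602.GT (IsForm Cone)
open Pool.Agent.Y221.FQ (Mor Onto FibresLe im)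
open Pool.Agent.Q58.FI (bc eqs)

/-- The places of `L` at which the point `z` meets the hypersurface `H = 0`, for a form `H` of
degree `h`. -/
def Meets (k : Type) {K L : Type} [Field k] [Field K] [Field L] [Algebra k L] [Algebra K L] {M : ℕ}
    (H : MvPolynomial (Fin (M + 1)) K) (h : ℕ) (z : Fin (M + 1) → L) : Set (Place k L) :=
  {P | h * pord P z < P.ord (aeval z H)}

theorem result {k0 k K0 K : Type} [Field k0] [Field k] [Field K0] [Field K] [IsAlgClosed k]
    [CharZero k] [Algebra k0 k] [Algebra k K] [Algebra k0 K] [IsScalarTower k0 k K]
    [Algebra k0 K0] [Algebra K0 K] [IsScalarTower k0 K0 K] [IsFF k K]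
    (hfg : ∃ S : Finset K0, IntermediateField.adjoin k0 (S : Set K0) = ⊤) {n m t l M h : ℕ}
    -- the degrees of the forms; the forms with indices in `C` are equations, the others give the
    -- boundary
    {A : Type} [Fintype A] {d : A → ℕ} (C : Finset A) (hd : 2 * m + 2 * t ≤ ∑ a, d a + C.card)
    -- a closed subset of projective space, of dimension at most `m`
    (V : Set (MvPolynomial (Fin (n + 1)) K0)) (hVh : ∀ f ∈ V, ∃ e, f.IsHomogeneous e)
    (hV : DimLE K0 V m)
    -- forms of degrees `d a` with independent coefficients
    (F : A → MvPolynomial (Fin (n + 1)) K) (hF : ∀ a, (F a).IsHomogeneous (d a))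
    (hgen : AlgebraicIndependent K0
      fun p : (a : A) × {I : Fin (n + 1) →₀ ℕ // I.degree = d a} => (F p.1).coeff p.2.1)
    -- projective varieties `W = {Ψ = 0}` and `Y = {Φ = 0}` over `K`
    {κ μ : Type} (Ψ : κ → MvPolynomial (Fin (l + 1)) K) (hΨ : ∀ e, IsForm (Ψ e))
    (Φ : μ → MvPolynomial (Fin (M + 1)) K)
    -- a morphism from `W` to the intersection
    (B : Fin (n + 1) → MvPolynomial (Fin (l + 1)) K)
    (hB : Mor (bc Ψ) (bc (eqs V fun c : {a // a ∈ C} => F c.1)) (bc B))
    -- a surjective morphism from `W` to `Y`, with fibres of at most `t` points
    (G : Fin (M + 1) → MvPolynomial (Fin (l + 1)) K) (hG : Mor (bc Ψ) (bc Φ) (bc G))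
    (hon : Onto (bc Ψ) (bc Φ) (bc G)) (hfib : FibresLe (bc Ψ) (bc G) t)
    -- the degrees of the forms
    (eB eG : ℕ) (hBe : ∀ j, (B j).IsHomogeneous eB) (hGe : ∀ j, (G j).IsHomogeneous eG)
    -- the boundary of `Y`
    (H : MvPolynomial (Fin (M + 1)) K) (hH : H.IsHomogeneous h) (hh : ∀ b, b ∉ C → 1 ≤ h)
    (hbd : ∀ x ∈ Cone (bc Ψ), aeval (im (bc G) x) H ≠ 0 →
      ∀ b, b ∉ C → aeval (im (bc B) x) (F b) ≠ 0) :
    -- the height inequality for all algebraic points
    ∃ C0 : ℕ, ∀ (L : Type) [Field L] [Algebra k L] [Algebra K L] [IsScalarTower k K L]
      [FiniteDimensional K L] (z : Fin (M + 1) → L), z ≠ 0 → (∀ i, aeval z (Φ i) = 0) →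
      aeval z H ≠ 0 →
      eB * ((∑ a, d a + C.card + 1 : ℕ) - 2 * m - 2 * t) * pht k z ≤
        eG * (canDeg k L + (Meets k H h z).ncard) + C0 * Module.finrank K L :=
  Pool.Agent.Q58.LG.vojta_im hfg C hd V hVh hV hF hgen hΨ hB hG hon hfib hH hh hbd hBe hGe

end Pool.Agent.Results.MP_4dacf8_ag.ImagesOfPairs
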